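import Pool.Agent.Y240.IR.Suff
import Pool.Agent.Y240.IR.Nec
import Pool.Agent.Y240.IR.Strip

/-!
# Subsets of `ℝⁿ` on which every continuous injection into `ℝⁿ` is an embedding

Write `K = X \ int X`. For a locally compact set `X ⊆ ℝⁿ` (any `n`):

* if `X` is injectively rigid, then every open and closed subset of `X` which meets `K` has
  compact complement in `X`;
* the converse holds if `K` is compact, or, more generally, if every point of `K` has a
  neighbourhood in which `K` is compact and open in `K`.

Consequently the complement of a nonempty bounded open set `U ⊆ ℝⁿ`, `n ≥ 1`, is injectively rigid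
if and only if it is connected. The condition on `K` in the converse cannot be dropped: a closed
half-infinite strip in the plane is not injectively rigid.
-/

set_option autoImplicit false

namespace Pool.Agent.Results.MP_fef6c2_gt.RigidityCriterion

open Topology

/-- A subset `X` of `ℝⁿ` is injectively rigid if every continuous injection of `X` into `ℝⁿ`
is a homeomorphism of `X` onto its image. -/
def InjectivelyRigid {n : ℕ} (X : Set (EuclideanSpace ℝ (Fin n))) : Prop :=
  ∀ f : X → EuclideanSpace ℝ (Fin n), Continuous f → Function.Injective f → IsEmbedding f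

/-- Every open and closed subset `A` of `X` which contains a point of `X \ int X` has compact
complement `X \ A`. -/
def EndCondition {n : ℕ} (X : Set (EuclideanSpace ℝ (Fin n))) : Prop :=
  ∀ A : Set X, IsClopen A → (∃ x ∈ A, (x : EuclideanSpace ℝ (Fin n)) ∉ interior X) → IsCompact Aᶜ

theorem necessary {n : ℕ} (X : Set (EuclideanSpace ℝ (Fin n))) [LocallyCompactSpace X]
    (h : InjectivelyRigid X) : EndCondition X := by
  intro A hA hAx
  by_contra hB
  obtain ⟨f, hf, hi, hne⟩ := Pool.Agent.Y240.IR.nec X A hA hAx hB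
  exact hne (h f hf hi)

theorem sufficient {n : ℕ} (X : Set (EuclideanSpace ℝ (Fin n))) [LocallyCompactSpace X]
    (hK : ∀ x ∈ X \ interior X, ∃ O : Set (EuclideanSpace ℝ (Fin n)), IsOpen O ∧ x ∈ O ∧
      IsCompact (O ∩ (X \ interior X)))
    (hA : EndCondition X) : InjectivelyRigid X :=
  fun f hf hi => Pool.Agent.Y240.IR.suff X hK hA f hf hi

section compl

variable {n : ℕ} {U : Set (EuclideanSpace ℝ (Fin (n + 1)))}

theorem not_bounded_univ : ¬ Bornology.IsBounded
    (Set.univ : Set (EuclideanSpace ℝ (Fin (n + 1)))) :=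
  NormedSpace.unbounded_univ ℝ _

theorem loc (hU : IsOpen U) : LocallyCompactSpace ↥Uᶜ :=
  hU.isClosed_compl.isClosedEmbedding_subtypeVal.locallyCompactSpace

theorem not_compact (hb : Bornology.IsBounded U) : ¬ IsCompact Uᶜ := by
  intro h
  apply not_bounded_univ (n := n)
  rw [← Set.union_compl_self U]
  exact hb.union h.isBounded

theorem not_open (hU : IsOpen U) (hne : U.Nonempty) (hb : Bornology.IsBounded U) :
    ¬ IsOpen Uᶜ := by
  intro h
  have h1 : IsClopen U := ⟨isOpen_compl_iff.1 h, hU⟩
  rcases isClopen_iff.1 h1 with h2 | h2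
  · rw [h2] at hne
    exact Set.not_nonempty_empty hne
  · rw [h2] at hb
    exact not_bounded_univ hb

/-- an open and closed subset of the complement which is contained in the interior is empty -/
theorem meets (hU : IsOpen U) (hne : U.Nonempty) (A : Set ↥Uᶜ) (hA : IsClopen A)
    (hAne : A.Nonempty) : ∃ x ∈ A, (x : EuclideanSpace ℝ (Fin (n + 1))) ∉ interior Uᶜ := by
  by_contra hno
  push Not at hno
  have hcl : IsClosed (Subtype.val '' A : Set (EuclideanSpace ℝ (Fin (n + 1)))) :=
    hU.isClosed_compl.isClosedEmbedding_subtypeVal.isClosedMap A hA.isClosed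
  obtain ⟨V, hVo, hV⟩ := isOpen_induced_iff.1 hA.isOpen
  have hop : IsOpen (Subtype.val '' A : Set (EuclideanSpace ℝ (Fin (n + 1)))) := by
    have : (Subtype.val '' A : Set (EuclideanSpace ℝ (Fin (n + 1)))) = V ∩ interior Uᶜ := by
      ext z
      constructor
      · rintro ⟨y, hy, rfl⟩
        refine ⟨?_, hno y hy⟩
        have : y ∈ Subtype.val ⁻¹' V := by rw [hV]; exact hy
        exact this
      · rintro ⟨h1, h2⟩
        refine ⟨⟨z, interior_subset h2⟩, ?_, rfl⟩
        rw [← hV]
        exact h1
    rw [this]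
    exact hVo.inter isOpen_interior
  rcases isClopen_iff.1 (⟨hcl, hop⟩ : IsClopen (Subtype.val '' A :
    Set (EuclideanSpace ℝ (Fin (n + 1))))) with h2 | h2
  · obtain ⟨a, ha⟩ := hAne
    have : (a : EuclideanSpace ℝ (Fin (n + 1))) ∈
        (Subtype.val '' A : Set (EuclideanSpace ℝ (Fin (n + 1)))) := ⟨a, ha, rfl⟩
    rw [h2] at this
    exact this
  · obtain ⟨u, hu⟩ := hne
    have : u ∈ (Subtype.val '' A : Set (EuclideanSpace ℝ (Fin (n + 1)))) := by
      rw [h2]; trivial
    obtain ⟨y, _, hy⟩ := this
    exact y.2 (hy ▸ hu)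

theorem rigid_iff (hU : IsOpen U) (hne : U.Nonempty) (hb : Bornology.IsBounded U) :
    InjectivelyRigid Uᶜ ↔ IsConnected Uᶜ := by
  have hloc := loc hU
  constructor
  · intro h
    have hc := necessary Uᶜ h
    have hnc := not_compact hb
    have hpre : PreconnectedSpace ↥Uᶜ := by
      rw [preconnectedSpace_iff_clopen]
      intro A hA
      by_contra hno
      rw [not_or] at hno
      obtain ⟨h1, h2⟩ := hno
      have h1' : A.Nonempty := Set.nonempty_iff_ne_empty.2 h1
      have h2' : Aᶜ.Nonempty := by
        rw [Set.nonempty_compl]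
        exact h2
      have c1 := hc A hA (meets hU hne A hA h1')
      have c2 := hc Aᶜ hA.compl (meets hU hne Aᶜ hA.compl h2')
      rw [compl_compl] at c2
      have c3 := c2.union c1
      rw [Set.union_compl_self] at c3
      exact hnc (isCompact_iff_isCompact_univ.2 c3)
    refine ⟨?_, isPreconnected_iff_preconnectedSpace.2 hpre⟩
    by_contra he
    rw [Set.not_nonempty_iff_eq_empty] at he
    rw [he] at hnc
    exact hnc isCompact_empty
  · intro h
    have hpre : PreconnectedSpace ↥Uᶜ := isPreconnected_iff_preconnectedSpace.1 h.isPreconnected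
    have hcl : IsClosed Uᶜ := hU.isClosed_compl
    refine sufficient Uᶜ (fun x hx => ⟨Set.univ, isOpen_univ, trivial, ?_⟩) ?_
    · rw [Set.univ_inter]
      have h1 : Uᶜ \ interior Uᶜ = frontier U := by
        rw [← frontier_compl, hcl.frontier_eq]
      rw [h1]
      exact Metric.isCompact_of_isClosed_isBounded isClosed_frontier
        (hb.closure.subset frontier_subset_closure)
    · intro A hA hAx
      rcases isClopen_iff.1 hA with h2 | h2
      · obtain ⟨x, hx, _⟩ := hAx
        rw [h2] at hx
        exact hx.elim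
      · rw [h2, Set.compl_univ]
        exact isCompact_empty

end compl

/-- the complement of the open unit ball is connected in dimension at least two -/
theorem connected_ext (n : ℕ) :
    IsConnected (Metric.ball (0 : EuclideanSpace ℝ (Fin (n + 2))) 1)ᶜ := by
  have hrank : 1 < Module.rank ℝ (EuclideanSpace ℝ (Fin (n + 2))) := by
    apply Module.lt_rank_of_lt_finrank
    rw [finrank_euclideanSpace_fin]
    omega
  have h1 := isConnected_compl_singleton_of_one_lt_rank hrank (0 : EuclideanSpace ℝ (Fin (n + 2)))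
  have h2 : ContinuousOn (fun z : EuclideanSpace ℝ (Fin (n + 2)) => (max ‖z‖⁻¹ 1) • z)
      {(0 : EuclideanSpace ℝ (Fin (n + 2)))}ᶜ := by
    have h0 : ContinuousOn (fun z : EuclideanSpace ℝ (Fin (n + 2)) => ‖z‖⁻¹)
        {(0 : EuclideanSpace ℝ (Fin (n + 2)))}ᶜ := by
      apply ContinuousOn.inv₀ continuous_norm.continuousOn
      intro y hy
      exact norm_ne_zero_iff.2 hy
    exact (h0.sup continuousOn_const).smul continuousOn_id
  have h3 : (fun z : EuclideanSpace ℝ (Fin (n + 2)) => (max ‖z‖⁻¹ 1) • z) ''
      {(0 : EuclideanSpace ℝ (Fin (n + 2)))}ᶜ =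
      (Metric.ball (0 : EuclideanSpace ℝ (Fin (n + 2))) 1)ᶜ := by
    ext y
    constructor
    · rintro ⟨z, hz, rfl⟩
      have hz' : 0 < ‖z‖ := norm_pos_iff.2 hz
      intro hmem
      rw [mem_ball_zero_iff, norm_smul, Real.norm_eq_abs,
        abs_of_pos (lt_of_lt_of_le one_pos (le_max_right _ _))] at hmem
      have h4 : 1 ≤ max ‖z‖⁻¹ 1 * ‖z‖ := by
        calc (1 : ℝ) = ‖z‖⁻¹ * ‖z‖ := (inv_mul_cancel₀ hz'.ne').symm
          _ ≤ max ‖z‖⁻¹ 1 * ‖z‖ := mul_le_mul_of_nonneg_right (le_max_left _ _) hz'.le
      linarith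
    · intro hy
      have hy1 : 1 ≤ ‖y‖ := by
        by_contra h
        exact hy (mem_ball_zero_iff.2 (not_le.1 h))
      refine ⟨y, ?_, ?_⟩
      · intro h0
        rw [Set.mem_singleton_iff] at h0
        rw [h0, norm_zero] at hy1
        linarith
      · show (max ‖y‖⁻¹ 1) • y = y
        rw [max_eq_right (inv_le_one_of_one_le₀ hy1), one_smul]
  rw [← h3]
  exact h1.image _ h2

/-- for connected sets the end condition holds -/
theorem endCondition_of_isConnected {n : ℕ} {X : Set (EuclideanSpace ℝ (Fin n))}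
    (h : IsConnected X) : EndCondition X := by
  have hpre : PreconnectedSpace X := isPreconnected_iff_preconnectedSpace.1 h.isPreconnected
  intro A hA hAx
  rcases isClopen_iff.1 hA with h2 | h2
  · obtain ⟨x, hx, _⟩ := hAx
    rw [h2] at hx
    exact hx.elim
  · rw [h2, Set.compl_univ]
    exact isCompact_empty

theorem result :
    -- necessary condition, for all locally compact sets
    (∀ (n : ℕ) (X : Set (EuclideanSpace ℝ (Fin n))), LocallyCompactSpace X →
      InjectivelyRigid X → EndCondition X) ∧
    -- it is sufficient if `K = X \ int X` is locally compact and open in `K` near its points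
    (∀ (n : ℕ) (X : Set (EuclideanSpace ℝ (Fin n))), LocallyCompactSpace X →
      (∀ x ∈ X \ interior X, ∃ O : Set (EuclideanSpace ℝ (Fin n)), IsOpen O ∧ x ∈ O ∧
        IsCompact (O ∩ (X \ interior X))) →
      EndCondition X → InjectivelyRigid X) ∧
    -- complements of bounded open sets
    (∀ (n : ℕ) (U : Set (EuclideanSpace ℝ (Fin (n + 1)))), IsOpen U → U.Nonempty →
      Bornology.IsBounded U → LocallyCompactSpace ↥Uᶜ ∧ ¬ IsCompact Uᶜ ∧ ¬ IsOpen Uᶜ ∧
        (InjectivelyRigid Uᶜ ↔ IsConnected Uᶜ)) ∧
    -- the question, in every dimension at least two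
    (∀ n : ℕ, ∃ X : Set (EuclideanSpace ℝ (Fin (n + 2))),
      LocallyCompactSpace X ∧ IsConnected Xᶜ ∧ ¬ IsCompact X ∧ ¬ IsOpen X ∧
        InjectivelyRigid X) ∧
    -- the necessary condition alone is not sufficient, even for closed sets in the plane
    (∃ X : Set (EuclideanSpace ℝ (Fin 2)), IsClosed X ∧ IsConnected X ∧ IsConnected Xᶜ ∧
      EndCondition X ∧ ¬ InjectivelyRigid X) := by
  refine ⟨fun n X hX h => necessary X h, fun n X hX hK hA => sufficient X hK hA,
    fun n U hU hne hb => ⟨loc hU, not_compact hb, not_open hU hne hb, rigid_iff hU hne hb⟩, ?_,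
    ⟨Pool.Agent.Y240.IR.strip, Pool.Agent.Y240.IR.strip_closed, Pool.Agent.Y240.IR.strip_conn,
      Pool.Agent.Y240.IR.strip_compl, endCondition_of_isConnected Pool.Agent.Y240.IR.strip_conn,
      fun h => Pool.Agent.Y240.IR.wrap_not (h _ Pool.Agent.Y240.IR.wrap_cont
        Pool.Agent.Y240.IR.wrap_inj)⟩⟩
  intro n
  have hne : (Metric.ball (0 : EuclideanSpace ℝ (Fin (n + 2))) 1).Nonempty :=
    ⟨0, Metric.mem_ball_self one_pos⟩
  refine ⟨(Metric.ball 0 1)ᶜ, loc Metric.isOpen_ball, ?_, not_compact Metric.isBounded_ball,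
    not_open Metric.isOpen_ball hne Metric.isBounded_ball,
    (rigid_iff Metric.isOpen_ball hne Metric.isBounded_ball).2 (connected_ext n)⟩
  rw [compl_compl]
  exact ⟨hne, (convex_ball _ _).isPreconnected⟩

end Pool.Agent.Results.MP_fef6c2_gt.RigidityCriterion
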